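import Pool.Agent.helper88.KG.Defs
import Pool.Agent.helper33.EF.RA
import Pool.Agent.helper13.EF.DL
import Pool.Agent.helper1.EF.FN

/-! # Project KG: K1 (est_k, k1, k8) -/

namespace Pool.Agent.helper88.KG

open Finset Pool.Agent.helper76.LP Pool.Agent.helper88.EF

theorem est_k (m D q : ℕ) [NeZero m] [NeZero D] (hD : D ∣ m) (hq : q.Prime) (hqD : q ∣ D)
    (K : ℤ) (c0 c : ZMod m → ℤ) (hQ : QEq q c0 c)
    (hmax : ∀ x, D ∣ addOrderOf x → addOrderOf x ≠ D → anti c x = 0)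
    (hb : (∑ x, if q ∣ addOrderOf x then |anti c0 x| else 0) ≤ K) :
    EstK D q (Even m) K (fun z => anti c (emb D m (z : ZMod D))) :=
  fun ψ B hT hB => FN_est m D q hD hq hqD K c0 c hQ hmax hb ψ B hT hB

/-- general scheme: a cube with nonzero difference gives a test function contradicting the
estimate -/
theorem K1_scheme (D q : ℕ) [NeZero D] (L : List ℕ) (ev : Prop) (K : ℤ) (f : (ZMod D)ˣ → ℤ)
    (h : RK D q L ev K f) (V : ℕ → Set (ZMod D)ˣ)
    (hV : ∀ p ∈ L, Gam D p ≤ Subgroup.closure (V p)) (hVG : ∀ p ∈ L, ∀ u ∈ V p, u ∈ Gam D p)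
    (hb : ∀ v : ℕ → (ZMod D)ˣ, (∀ p ∈ L, v p ∈ V p) → (∀ p ∈ L, v p ≠ 1) →
      ((-1 : (ZMod D)ˣ) ∉ Pl (Gam D) (q :: L) ∨ ∃ p ∈ L, v p * v p ≠ 1) ∧
      ∃ B : ℤ, K * B < 2 * (Nat.card (Gam D q) : ℤ) ∧
        ∀ z ψ, Cub D q L v z ψ → Bd D ev ψ B) : MDv (Gam D) L f := by
  have hnd := h.nd
  rw [List.nodup_cons] at hnd
  refine mdv_of_dl (Gam D) L hnd.2 V hV f ?_
  intro v hv x
  by_cases hv1 : ∀ p ∈ L, v p ≠ 1
  · obtain ⟨h1, B, hB, h2⟩ := hb v hv hv1
    obtain ⟨ψ, hT, hC, hs⟩ := cube_test D q L h.nd h.hL v (fun p hp => hVG p hp _ (hv p hp)) hv1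
      h1 x
    have h3 := h.est ψ B hT (h2 x ψ hC)
    rw [hs f h.odd h.mdv] at h3
    by_contra hne
    have h4 : 1 ≤ |dl v L f x| := Int.one_le_abs hne
    rw [abs_mul, abs_mul] at h3
    have h5 : |(2 : ℤ)| = 2 := by norm_num
    have h6 : |(Nat.card (Gam D q) : ℤ)| = (Nat.card (Gam D q) : ℤ) := abs_of_nonneg (by positivity)
    rw [h5, h6] at h3
    have h7 : 2 * (Nat.card (Gam D q) : ℤ) * 1 ≤ 2 * (Nat.card (Gam D q) : ℤ) * |dl v L f x| :=
      mul_le_mul_of_nonneg_left h4 (by positivity)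
    linarith
  · push Not at hv1
    obtain ⟨p, hp, hp1⟩ := hv1
    rw [dl_erase v L p hp, hp1, one_mul, sub_self]

theorem K1_mem {D q : ℕ} [NeZero D] {L : List ℕ} {ev : Prop} {K : ℤ} {f : (ZMod D)ˣ → ℤ}
    (h : RK D q L ev K f) : ∀ p ∈ q :: L, p.Prime ∧ p ∣ D := by
  intro p hp
  have h1 : p ∈ D.primeFactors := by
    rw [← h.hL]; exact List.mem_toFinset.2 hp
  exact ⟨Nat.prime_of_mem_primeFactors h1, Nat.dvd_of_mem_primeFactors h1⟩

theorem K1_card {D q : ℕ} [NeZero D] {L : List ℕ} {ev : Prop} {K : ℤ} {f : (ZMod D)ˣ → ℤ}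
    (h : RK D q L ev K f) (h2 : ¬ q * q ∣ D) : (Nat.card (Gam D q) : ℤ) = (q : ℤ) - 1 := by
  have hq := h.hq
  rw [card_Gam D q hq (K1_mem h q List.mem_cons_self).2, if_neg (by rw [pow_two]; exact h2)]
  have := hq.one_lt
  omega

theorem k1 (D q : ℕ) [NeZero D] (L : List ℕ) (ev : Prop) (K : ℤ) (f : (ZMod D)ˣ → ℤ)
    (h : RK D q L ev K f) (h2 : q * q ∣ D) : MDv (Gam D) L f := by
  have hq := h.hq
  have h11 := h.h11
  have hqD : q ∣ D := (Dvd.intro q rfl).trans h2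
  have hmem := K1_mem h
  refine K1_scheme D q L ev K f h (fun p => (Gam D p : Set (ZMod D)ˣ))
    (fun p _ => Subgroup.subset_closure) (fun p _ u hu => hu) ?_
  intro v hv hv1
  refine ⟨Or.inl (neg_one_not D q L h.hL (Or.inl ⟨q, hq, by omega, h2⟩)), 1, ?_, ?_⟩
  · rw [card_Gam D q hq hqD, if_pos (by rw [pow_two]; exact h2)]
    have := h.hK
    linarith
  · intro z ψ hψ
    refine bd_one D q L v z ψ hψ ev ?_
    intro _ _ b S S' ξ hS hS' hξ he
    exfalso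
    refine RA_nobad D q q hqD (RA_two_ne_one q (by omega)) (RA_two_ne_neg q (by omega)) L v ?_ ?_
      b S S' ξ hS hS' hξ he
    · intro p hp
      have h3 := hmem p (List.mem_cons_of_mem _ hp)
      exact gam_one D p q hqD (RA_dvd_div D p q hq h3.1 h3.2 h2) _ (hv p hp)
    · intro ξ hξ
      exact gam_one D q q hqD (RA_dvd_div D q q hq hq hqD h2) _ hξ

theorem k8 (D q : ℕ) [NeZero D] (L : List ℕ) (ev : Prop) (K : ℤ) (f : (ZMod D)ˣ → ℤ)
    (h : RK D q L ev K f) (_ho : Odd D) (h2 : ¬ q * q ∣ D)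
    (hr : (∃ r : ℕ, r.Prime ∧ 5 ≤ r ∧ r * r ∣ D) ∨ 27 ∣ D) : MDv (Gam D) L f := by
  have hq := h.hq
  have hmem := K1_mem h
  -- a modulus `s`
  have hs : ∃ s : ℕ, s ∣ D ∧ 4 ≤ s ∧ ∀ p ∈ q :: L, s ∣ D / p := by
    rcases hr with ⟨r, hr, hr5, hrr⟩ | h27
    · refine ⟨r, (Dvd.intro r rfl).trans hrr, by omega, ?_⟩
      intro p hp
      exact RA_dvd_div D p r hr (hmem p hp).1 (hmem p hp).2 hrr
    · refine ⟨9, (by norm_num : 9 ∣ 27).trans h27, by norm_num, ?_⟩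
      intro p hp
      obtain ⟨e, he⟩ := (hmem p hp).2
      have hpp := (hmem p hp).1
      have h3 : D / p = e := by
        conv_lhs => rw [he]
        exact Nat.mul_div_cancel_left _ hpp.pos
      rw [h3]
      by_cases hp3 : p = 3
      · subst hp3
        rw [he] at h27
        have : 3 * 9 ∣ 3 * e := by norm_num; exact h27
        exact Nat.dvd_of_mul_dvd_mul_left (by norm_num) this
      · have h4 : Nat.Coprime 9 p := by
          have h5 : Nat.Coprime 3 p := (Nat.coprime_primes Nat.prime_three hpp).2 (Ne.symm hp3)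
          have : (9 : ℕ) = 3 ^ 2 := by norm_num
          rw [this]
          exact Nat.Coprime.pow_left 2 h5
        apply h4.dvd_of_dvd_mul_left
        rw [← he]
        exact (by norm_num : 9 ∣ 27).trans h27
  obtain ⟨s, hsD, hs4, hs⟩ := hs
  refine K1_scheme D q L ev K f h (fun p => (Gam D p : Set (ZMod D)ˣ))
    (fun p _ => Subgroup.subset_closure) (fun p _ u hu => hu) ?_
  intro v hv hv1
  refine ⟨Or.inl (neg_one_not D q L h.hL (Or.inl ?_)), 1, ?_, ?_⟩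
  · rcases hr with ⟨r, hr, hr5, hrr⟩ | h27
    · exact ⟨r, hr, by omega, hrr⟩
    · exact ⟨3, Nat.prime_three, le_rfl, (by norm_num : 3 * 3 ∣ 27).trans h27⟩
  · rw [K1_card h h2]
    have := h.hK
    linarith
  · intro z ψ hψ
    refine bd_one D q L v z ψ hψ ev ?_
    intro _ _ b S S' ξ hS hS' hξ he
    exfalso
    refine RA_nobad D q s hsD (RA_two_ne_one s (by omega)) (RA_two_ne_neg s (by omega)) L v ?_ ?_
      b S S' ξ hS hS' hξ he
    · intro p hp
      exact gam_one D p s hsD (hs p (List.mem_cons_of_mem _ hp)) _ (hv p hp)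
    · intro ξ hξ
      exact gam_one D q s hsD (hs q List.mem_cons_self) _ hξ

end Pool.Agent.helper88.KG
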